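import Pool.Agent.K4H20.RC.Spec

set_option autoImplicit false

namespace Pool.Agent.K4H20.RC

/-- the isometry `x ↦ P + x₀ (a, b) + ε x₁ (-b, a)` -/
noncomputable def mv (P : E2) (a b ε : ℝ) (h : a ^ 2 + b ^ 2 = 1) (hε : ε ^ 2 = 1) : E2 ≃ᵢ E2 where
  toFun x := !₂[P 0 + x 0 * a - ε * x 1 * b, P 1 + x 0 * b + ε * x 1 * a]
  invFun y := !₂[(y 0 - P 0) * a + (y 1 - P 1) * b, ε * (-(y 0 - P 0) * b + (y 1 - P 1) * a)]
  left_inv := by
    intro x
    ext i
    fin_cases i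
    · simp
      linear_combination (x 0) * h
    · simp
      linear_combination (x 1 * ε ^ 2) * h + x 1 * hε
  right_inv := by
    intro y
    ext i
    fin_cases i
    · simp
      linear_combination (y 0 - P 0) * h + ((y 0 - P 0) * b ^ 2 - (y 1 - P 1) * a * b) * hε
    · simp
      linear_combination (y 1 - P 1) * h + (-(y 0 - P 0) * a * b + (y 1 - P 1) * a ^ 2) * hε
  isometry_toFun := by
    refine Isometry.of_dist_eq fun x y => ?_
    rw [EuclideanSpace.dist_eq, EuclideanSpace.dist_eq]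
    congr 1
    simp only [Fin.sum_univ_two, Real.dist_eq, sq_abs]
    simp
    linear_combination ((x 0 - y 0) ^ 2 + ε ^ 2 * (x 1 - y 1) ^ 2) * h + (x 1 - y 1) ^ 2 * hε

theorem isRect_of (P : E2) (a b ε : ℝ) (h : a ^ 2 + b ^ 2 = 1) (hε : ε ^ 2 = 1) (d₁ d₂ : ℝ) :
    IsRect d₁ d₂ {!₂[P 0, P 1], !₂[P 0 + d₁ * a, P 1 + d₁ * b],
      !₂[P 0 - ε * d₂ * b, P 1 + ε * d₂ * a],
      !₂[P 0 + d₁ * a - ε * d₂ * b, P 1 + d₁ * b + ε * d₂ * a]} := by
  refine ⟨mv P a b ε h hε, ?_⟩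
  simp only [Set.image_insert_eq, Set.image_singleton]
  have e1 : mv P a b ε h hε !₂[0, 0] = !₂[P 0, P 1] := by
    ext i; fin_cases i <;> simp [mv]
  have e2 : mv P a b ε h hε !₂[d₁, 0] = !₂[P 0 + d₁ * a, P 1 + d₁ * b] := by
    ext i; fin_cases i <;> simp [mv]
  have e3 : mv P a b ε h hε !₂[0, d₂] = !₂[P 0 - ε * d₂ * b, P 1 + ε * d₂ * a] := by
    ext i; fin_cases i <;> simp [mv]
  have e4 : mv P a b ε h hε !₂[d₁, d₂] =
      !₂[P 0 + d₁ * a - ε * d₂ * b, P 1 + d₁ * b + ε * d₂ * a] := by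
    ext i; fin_cases i <;> simp [mv]
  rw [e1, e2, e3, e4]

/-- the first coordinate -/
noncomputable def cx (z : Z4) : ℝ := z.1 + z.2.1 * (Real.sqrt 3 / 2) + z.2.2.1 / 2

/-- the second coordinate -/
noncomputable def cy (z : Z4) : ℝ := z.2.1 / 2 + z.2.2.1 * (Real.sqrt 3 / 2) + z.2.2.2

theorem cx_add (z z' : Z4) : cx (z + z') = cx z + cx z' := by
  simp only [cx, Prod.fst_add, Prod.snd_add]; push_cast; ring

theorem cy_add (z z' : Z4) : cy (z + z') = cy z + cy z' := by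
  simp only [cy, Prod.fst_add, Prod.snd_add]; push_cast; ring

theorem cx_smul (m : ℕ) (z : Z4) : cx (m • z) = m * cx z := by
  simp only [cx, Prod.smul_fst, Prod.smul_snd]; simp only [nsmul_eq_mul]; push_cast; ring

theorem cy_smul (m : ℕ) (z : Z4) : cy (m • z) = m * cy z := by
  simp only [cy, Prod.smul_fst, Prod.smul_snd]; simp only [nsmul_eq_mul]; push_cast; ring

theorem frame (k : Fin 3) : cx (fu k) ^ 2 + cy (fu k) ^ 2 = 1 ∧ cx (fv k) = - cy (fu k) ∧
    cy (fv k) = cx (fu k) := by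
  have h3 : Real.sqrt 3 ^ 2 = 3 := Real.sq_sqrt (by norm_num)
  fin_cases k
  · refine ⟨?_, ?_, ?_⟩ <;> simp [cx, cy, fu, fv]
  · refine ⟨?_, ?_, ?_⟩
    · simp [cx, cy, fu]; nlinarith [h3]
    · simp [cx, cy, fu, fv]; ring
    · simp [cx, cy, fu, fv]
  · refine ⟨?_, ?_, ?_⟩
    · simp [cx, cy, fu]; nlinarith [h3]
    · simp [cx, cy, fu, fv]
    · simp [cx, cy, fu, fv]; ring

theorem geo : StGeo := by
  intro hS
  unfold S at hS
  push Not at hS
  obtain ⟨c, hc⟩ := hS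
  refine ⟨fun z => c !₂[cx z, cy z], fun p k m n hm hn hmn ⟨h1, h2, h3⟩ => ?_⟩
  obtain ⟨f1, f2, f3⟩ := frame k
  simp only [cx_add, cy_add, cx_smul, cy_smul, f2, f3] at h1 h2 h3
  -- a contradiction from four equal colours
  have main : ∀ s : Set E2, (s = {!₂[cx p, cy p], !₂[cx p + m * cx (fu k), cy p + m * cy (fu k)],
      !₂[cx p + n * -cy (fu k), cy p + n * cx (fu k)],
      !₂[cx p + m * cx (fu k) + n * -cy (fu k), cy p + m * cy (fu k) + n * cx (fu k)]}) →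
      ∀ x ∈ s, ∀ y ∈ s, c x = c y := by
    intro s hs x hx y hy
    have key : ∀ z ∈ s, c z = c !₂[cx p, cy p] := by
      intro z hz
      rw [hs] at hz
      simp only [Set.mem_insert_iff, Set.mem_singleton_iff] at hz
      rcases hz with rfl | rfl | rfl | rfl
      · rfl
      · exact h1.symm
      · exact h2.symm
      · exact h3.symm
    rw [key x hx, key y hy]
  rcases hmn with ⟨hm2, hn4⟩ | ⟨hm4, hn2⟩
  · have hr := isRect_of !₂[cx p, cy p] (cx (fu k)) (cy (fu k)) 1 f1 (by norm_num) m n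
    obtain ⟨x, hx, y, hy, hne⟩ := hc m n (by omega) hn hn4 _ hr
    refine hne (main _ ?_ x hx y hy)
    simp only [Matrix.cons_val_zero, Matrix.cons_val_one, one_mul]
    congr 1
    ring_nf
  · have hr := isRect_of !₂[cx p, cy p] (-cy (fu k)) (cx (fu k)) (-1)
      (by rw [neg_sq, add_comm]; exact f1) (by norm_num) n m
    obtain ⟨x, hx, y, hy, hne⟩ := hc n m (by omega) hm hm4 _ hr
    refine hne (main _ ?_ x hx y hy)
    ext z
    simp only [Matrix.cons_val_zero, Matrix.cons_val_one, Set.mem_insert_iff,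
      Set.mem_singleton_iff]
    ring_nf
    tauto

end Pool.Agent.K4H20.RC
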